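import Pool.Agent.W761.CC.LayS
import Pool.Agent.W571.CB.La

/-!
# CC-LD: the depletions of the blocks
-/

set_option autoImplicit false

open MeasureTheory
open scoped ENNReal

namespace Pool.Agent.W334.CC

open Pool.Agent.W761.CB Pool.Agent.W761.CC Pool.Agent.W571.CB.La

section general

variable {X : Type} [MeasurableSpace X] (ν : Measure X) [IsFiniteMeasure ν]

/-- Cauchy-Schwarz -/
theorem sq_lint (B : Set X) (f : X → ℝ≥0∞) (hf : Measurable f) :
    (∫⁻ y in B, f y ∂ν) ^ 2 ≤ ν B * ∫⁻ y in B, f y ^ 2 ∂ν := by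
  have h1 := ENNReal.lintegral_mul_le_Lp_mul_Lq (ν.restrict B) (p := 2) (q := 2)
    (Real.HolderConjugate.two_two) hf.aemeasurable (aemeasurable_const (b := (1 : ℝ≥0∞)))
  simp only [Pi.mul_apply, mul_one, ENNReal.rpow_two, one_pow, lintegral_one,
    Measure.restrict_apply_univ] at h1
  calc (∫⁻ y in B, f y ∂ν) ^ 2
      ≤ ((∫⁻ y in B, f y ^ 2 ∂ν) ^ (1 / 2 : ℝ) * (ν B) ^ (1 / 2 : ℝ)) ^ 2 := by gcongr
    _ = ν B * ∫⁻ y in B, f y ^ 2 ∂ν := by
      rw [mul_pow, ← ENNReal.rpow_natCast, ← ENNReal.rpow_natCast, ← ENNReal.rpow_mul,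
        ← ENNReal.rpow_mul]
      norm_num
      rw [mul_comm]

theorem pointwise (B : Set X) (hB0 : ν B ≠ 0) (F : Multiset X → ℂ) (hF : EB F)
    (x : X) (γ : Cf X) :
    ‖F (x ::ₘ ms γ) - av ν B F (ms γ)‖ₑ ^ 2 ≤
      (ν B)⁻¹ * ∫⁻ y in B, ‖F (x ::ₘ ms γ) - F (y ::ₘ ms γ)‖ₑ ^ 2 ∂ν := by
  have hE := ebc X ν F F hF hF
  obtain ⟨C, c, hC, hc, hb⟩ := hE.2.2.2.2.2.2.2.1
  have hm : Measurable fun y : X => F (y ::ₘ ms γ) :=
    hE.2.2.2.2.1.comp (measurable_id.prodMk measurable_const)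
  have hint : Integrable (fun y : X => F (y ::ₘ ms γ)) (ν.restrict B) := by
    refine Integrable.of_bound hm.aestronglyMeasurable (C * c ^ Multiset.card (ms γ)) ?_
    exact Filter.Eventually.of_forall fun y => hb y _
  have hBt : ν B ≠ ⊤ := measure_ne_top ν B
  have hr : ((ν B).toReal : ℂ) ≠ 0 := by
    rw [Ne, Complex.ofReal_eq_zero]
    exact (ENNReal.toReal_pos hB0 hBt).ne'
  have h1 : F (x ::ₘ ms γ) - av ν B F (ms γ) =
      ((ν B).toReal : ℂ)⁻¹ * ∫ y in B, (F (x ::ₘ ms γ) - F (y ::ₘ ms γ)) ∂ν := by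
    rw [integral_sub (integrable_const _) hint]
    unfold av
    rw [integral_const, mul_sub]
    congr 1
    rw [Measure.real, Measure.restrict_apply_univ, Complex.real_smul, ← mul_assoc,
      inv_mul_cancel₀ hr, one_mul]
  have h2 : ‖((ν B).toReal : ℂ)⁻¹‖ₑ = (ν B)⁻¹ := by
    rw [enorm_inv hr]
    congr 1
    rw [← ofReal_norm, Complex.norm_real, Real.norm_eq_abs,
      abs_of_nonneg ENNReal.toReal_nonneg, ENNReal.ofReal_toReal hBt]
  have hm2 : Measurable fun y : X => ‖F (x ::ₘ ms γ) - F (y ::ₘ ms γ)‖ₑ :=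
    (measurable_const.sub hm).enorm
  calc ‖F (x ::ₘ ms γ) - av ν B F (ms γ)‖ₑ ^ 2
      = ((ν B)⁻¹ * ‖∫ y in B, (F (x ::ₘ ms γ) - F (y ::ₘ ms γ)) ∂ν‖ₑ) ^ 2 := by
        rw [h1, enorm_mul, h2]
    _ ≤ ((ν B)⁻¹ * ∫⁻ y in B, ‖F (x ::ₘ ms γ) - F (y ::ₘ ms γ)‖ₑ ∂ν) ^ 2 := by
        gcongr
        exact enorm_integral_le_lintegral_enorm _
    _ = (ν B)⁻¹ ^ 2 * (∫⁻ y in B, ‖F (x ::ₘ ms γ) - F (y ::ₘ ms γ)‖ₑ ∂ν) ^ 2 := mul_pow _ _ _
    _ ≤ (ν B)⁻¹ ^ 2 * (ν B * ∫⁻ y in B, ‖F (x ::ₘ ms γ) - F (y ::ₘ ms γ)‖ₑ ^ 2 ∂ν) := by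
        gcongr
        exact sq_lint ν B _ hm2
    _ = (ν B)⁻¹ * ∫⁻ y in B, ‖F (x ::ₘ ms γ) - F (y ::ₘ ms γ)‖ₑ ^ 2 ∂ν := by
        rw [pow_two, ← mul_assoc, mul_assoc ((ν B)⁻¹), ENNReal.inv_mul_cancel hB0 hBt, mul_one]

theorem jensen (B : Set X) (hB0 : ν B ≠ 0) (F : Multiset X → ℂ) (hF : EB F) :
    dp ν B F ≤ (ν B)⁻¹ * ∫⁻ x in B, ∫⁻ y in B, dE ν F x y ∂ν ∂ν := by
  have hE := ebc X ν F F hF hF
  have hBt : ν B ≠ ⊤ := measure_ne_top ν B
  have hfin : IsFiniteMeasure (lam ν) := (slam X ν).2.1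
  unfold dp
  rw [← lintegral_const_mul' _ _ (ENNReal.inv_ne_top.2 hB0)]
  apply lintegral_mono
  intro x
  simp only
  unfold nE
  calc ∫⁻ γ, ‖F (x ::ₘ ms γ) - av ν B F (ms γ)‖ₑ ^ 2 ∂(lam ν)
      ≤ ∫⁻ γ, (ν B)⁻¹ * ∫⁻ y in B, ‖F (x ::ₘ ms γ) - F (y ::ₘ ms γ)‖ₑ ^ 2 ∂ν ∂(lam ν) :=
        lintegral_mono fun γ => pointwise ν B hB0 F hF x γ
    _ = (ν B)⁻¹ * ∫⁻ γ, ∫⁻ y in B, ‖F (x ::ₘ ms γ) - F (y ::ₘ ms γ)‖ₑ ^ 2 ∂ν ∂(lam ν) :=
        lintegral_const_mul' _ _ (ENNReal.inv_ne_top.2 hB0)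
    _ = (ν B)⁻¹ * ∫⁻ y in B, dE ν F x y ∂ν := by
        congr 1
        rw [lintegral_lintegral_swap]
        · rfl
        · apply Measurable.aemeasurable
          have h1 : Measurable fun p : Cf X × X => F (x ::ₘ ms p.1) :=
            hE.2.2.2.2.1.comp (measurable_const.prodMk measurable_fst)
          have h2 : Measurable fun p : Cf X × X => F (p.2 ::ₘ ms p.1) :=
            hE.2.2.2.2.1.comp (measurable_snd.prodMk measurable_fst)
          exact ((h1.sub h2).enorm).pow_const 2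

theorem dE_symm (F : Multiset X → ℂ) (x y : X) : dE ν F x y = dE ν F y x := by
  unfold dE nE
  apply lintegral_congr
  intro γ
  rw [enorm_sub_rev]

end general

theorem one_pt {n : ℕ} {L b : ℝ} [Fact (0 < L)] (hTF : S_TF) (A : Set (Tor n L))
    (hA : MeasurableSet A) (hbz : ∀ x y : Tor n L, x ∈ A → y ∈ A →
      ∃ z : Fin n → ℝ, (∀ c, |z c| < b) ∧ y = x + pr L z) (x : Tor n L) (hx : x ∈ A)
    (g : Tor n L → ℝ≥0∞) (hg : Measurable g) :
    ∫⁻ y in A, g y ≤ ∫⁻ z in cube n b, g (x + pr L z) := by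
  obtain ⟨hvol, hprm, hpra, hfund, htrans, hnorm, hrep, -⟩ := hTF n L
  have hcm : MeasurableSet (cube n b) := by
    unfold cube
    have : {z : Fin n → ℝ | ∀ c, |z c| ≤ b} = ⋂ c, {z : Fin n → ℝ | |z c| ≤ b} := by
      ext z; simp
    rw [this]
    exact MeasurableSet.iInter fun c => measurableSet_le (measurable_pi_apply c).abs measurable_const
  have hgi : Measurable (A.indicator g) := hg.indicator hA
  have h1 : ∫⁻ y in A, g y = ∫⁻ z in {z : Fin n → ℝ | ∀ c, -(L / 2) < z c ∧ z c ≤ L / 2},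
      A.indicator g (pr L z + x) := by
    rw [← lintegral_indicator hA, ← htrans _ hgi x]
    exact hfund (fun y => A.indicator g (y + x)) (hgi.comp (measurable_id.add_const x))
  rw [h1, ← lintegral_indicator hcm]
  refine (setLIntegral_mono_ae' ?_ ?_).trans (setLIntegral_le_lintegral
    {z : Fin n → ℝ | ∀ c, -(L / 2) < z c ∧ z c ≤ L / 2} _)
  · have : {z : Fin n → ℝ | ∀ c, -(L / 2) < z c ∧ z c ≤ L / 2} =
        ⋂ c, {z : Fin n → ℝ | -(L / 2) < z c ∧ z c ≤ L / 2} := by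
      ext z; simp
    rw [this]
    exact MeasurableSet.iInter fun c =>
      (measurableSet_lt measurable_const (measurable_pi_apply c)).inter
        (measurableSet_le (measurable_pi_apply c) measurable_const)
  · refine Filter.Eventually.of_forall fun z hz => ?_
    by_cases hin : pr L z + x ∈ A
    · rw [Set.indicator_of_mem hin]
      have hzc : z ∈ cube n b := by
        obtain ⟨z', hz', he⟩ := hbz x (pr L z + x) hx hin
        have he' : pr L z = pr (n := n) L z' := by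
          rw [add_comm x] at he
          exact add_right_cancel he
        intro c
        have h1 : ‖pr (n := n) L z c‖ = |z c| :=
          hnorm z (fun c => abs_le.2 ⟨(hz c).1.le, (hz c).2⟩) c
        have h2 : ‖pr (n := n) L z' c‖ ≤ |z' c| := by
          change ‖((z' c : ℝ) : AddCircle L)‖ ≤ |z' c|
          have := QuotientAddGroup.norm_mk_le_norm (S := AddSubgroup.zmultiples L) (m := z' c)
          exact this
        rw [← h1, he']
        exact h2.trans (hz' c).le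
      rw [Set.indicator_of_mem hzc, add_comm]
    · rw [Set.indicator_of_notMem hin]
      exact zero_le

theorem swap {n : ℕ} {L b : ℝ} [Fact (0 < L)] (hprm : Measurable (pr (n := n) L))
    (G : Tor n L → Tor n L → ℝ≥0∞) (hG : Measurable fun p : Tor n L × Tor n L => G p.1 p.2) :
    ∫⁻ x, ∫⁻ z in cube n b, G x (x + pr L z) = ∫⁻ z in cube n b, ∫⁻ x, G x (x + pr L z) := by
  apply lintegral_lintegral_swap
  apply Measurable.aemeasurable
  have h1 : Measurable fun p : Tor n L × (Fin n → ℝ) => p.1 + pr L p.2 :=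
    measurable_fst.add (hprm.comp measurable_snd)
  have h2 : Measurable fun p : Tor n L × (Fin n → ℝ) => (p.1, p.1 + pr L p.2) :=
    measurable_fst.prodMk h1
  exact hG.comp h2

theorem partition {X : Type} [MeasurableSpace X] (ν : Measure X) {I : Type} [Fintype I]
    (Bl : I → Set X) (hbm : ∀ i, MeasurableSet (Bl i)) (hbu : ∀ x, ∃! i, x ∈ Bl i)
    (f : X → ℝ≥0∞) : ∑ i, ∫⁻ x in Bl i, f x ∂ν = ∫⁻ x, f x ∂ν := by
  have h1 : (⋃ i ∈ (Finset.univ : Finset I), Bl i) = Set.univ := by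
    ext x
    simp only [Finset.mem_univ, Set.iUnion_true, Set.mem_iUnion, Set.mem_univ, iff_true]
    obtain ⟨i, hi, _⟩ := hbu x
    exact ⟨i, hi⟩
  have h2 := lintegral_biUnion_finset (μ := ν)
    (s := (Finset.univ : Finset I)) (t := Bl) (f := f) ?_ (fun i _ => hbm _)
  · rw [h1] at h2
    rw [Measure.restrict_univ] at h2
    exact h2.symm
  · intro i _ j _ hij
    change Disjoint (Bl i) (Bl j)
    rw [Set.disjoint_left]
    intro x hxi hxj
    obtain ⟨k, _, hk⟩ := hbu x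
    exact hij ((hk i hxi).trans (hk j hxj).symm)

theorem vol_eq {X : Type} [MeasurableSpace X] (ν : Measure X) {I : Type} [Fintype I]
    [DecidableEq I] (Bl : I → Set X) (hbm : ∀ i, MeasurableSet (Bl i))
    (hbu : ∀ x, ∃! i, x ∈ Bl i) (a : ℝ) (h : ∀ i, ν (Bl i) ≤ ENNReal.ofReal a)
    (hu : ν Set.univ = ENNReal.ofReal (Fintype.card I * a)) (i : I) :
    ν (Bl i) = ENNReal.ofReal a := by
  refine le_antisymm (h _) ?_
  have h1 : ∑ j, ν (Bl j) = ENNReal.ofReal (Fintype.card I * a) := by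
    have := partition ν Bl hbm hbu (fun _ => 1)
    simp only [lintegral_one, Measure.restrict_apply_univ] at this
    rw [this, hu]
  have h2 : ∑ j ∈ Finset.univ.erase i, ν (Bl j) ≤
      ∑ _j ∈ (Finset.univ : Finset I).erase i, ENNReal.ofReal a :=
    Finset.sum_le_sum fun j _ => h _
  have h3 : ENNReal.ofReal (Fintype.card I * a) =
      (∑ _j ∈ (Finset.univ : Finset I).erase i, ENNReal.ofReal a) + ENNReal.ofReal a := by
    rw [Finset.sum_erase_add _ _ (Finset.mem_univ i), Finset.sum_const, Finset.card_univ]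
    rw [nsmul_eq_mul, ENNReal.ofReal_mul (by positivity), ENNReal.ofReal_natCast]
  rw [← Finset.sum_erase_add _ _ (Finset.mem_univ i), h3] at h1
  have h4 : (∑ _j ∈ (Finset.univ : Finset I).erase i, ENNReal.ofReal a) ≠ ⊤ := by
    rw [ENNReal.sum_ne_top]
    intro j _
    exact ENNReal.ofReal_ne_top
  by_contra hlt
  rw [not_le] at hlt
  have h5 := ENNReal.add_lt_add_of_le_of_lt (ne_top_of_le_ne_top h4 h2) h2 hlt
  rw [h1] at h5
  exact lt_irrefl _ h5

theorem sum_le {n : ℕ} {L b : ℝ} [Fact (0 < L)] (hTF : S_TF) {I : Type} [Fintype I]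
    (Bl : I → Set (Tor n L)) (hbm : ∀ i, MeasurableSet (Bl i)) (hbu : ∀ x, ∃! i, x ∈ Bl i)
    (hbz : ∀ i, ∀ x y : Tor n L, x ∈ Bl i → y ∈ Bl i →
      ∃ z : Fin n → ℝ, (∀ c, |z c| < b) ∧ y = x + pr L z)
    (G : Tor n L → Tor n L → ℝ≥0∞) (hG : Measurable fun p : Tor n L × Tor n L => G p.1 p.2)
    (hGs : ∀ x y, G x y = G y x) :
    ∑ i, ∫⁻ x in Bl i, ∫⁻ y in Bl i, G x y ≤ ∫⁻ z in cube n b, ∫⁻ x, G (x + pr L z) x := by
  calc ∑ i, ∫⁻ x in Bl i, ∫⁻ y in Bl i, G x y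
      ≤ ∑ i, ∫⁻ x in Bl i, ∫⁻ z in cube n b, G x (x + pr L z) := by
        refine Finset.sum_le_sum fun i _ => ?_
        apply setLIntegral_mono_ae' (hbm _)
        refine Filter.Eventually.of_forall fun x hx => ?_
        exact one_pt hTF _ (hbm _) (hbz _) x hx (fun y => G x y)
          (hG.comp (measurable_const.prodMk measurable_id))
    _ = ∫⁻ x, ∫⁻ z in cube n b, G x (x + pr L z) := partition volume Bl hbm hbu _
    _ = ∫⁻ z in cube n b, ∫⁻ x, G x (x + pr L z) := swap (hTF n L).2.1 _ hG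
    _ = ∫⁻ z in cube n b, ∫⁻ x, G (x + pr L z) x := by
        apply lintegral_congr
        intro z
        apply lintegral_congr
        intro x
        exact hGs _ _

theorem ld0 {n : ℕ} {L b : ℝ} [Fact (0 < L)] (hTF : S_TF) {I : Type} [Fintype I] [DecidableEq I]
    (Bl : I → Set (Tor n L)) (hbm : ∀ i, MeasurableSet (Bl i)) (hbu : ∀ x, ∃! i, x ∈ Bl i)
    (hbz : ∀ i, ∀ x y : Tor n L, x ∈ Bl i → y ∈ Bl i →
      ∃ z : Fin n → ℝ, (∀ c, |z c| < b) ∧ y = x + pr L z) (hb : 0 < b)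
    (hv : ∀ i, volume (Bl i) ≤ ENNReal.ofReal (b ^ n))
    (hc : L ^ n = Fintype.card I * b ^ n) (F : Multiset (Tor n L) → ℂ) (hF : EB F) :
    ∑ i, dp volume (Bl i) F ≤ (ENNReal.ofReal (b ^ n))⁻¹ *
      ∫⁻ z in cube n b, ∫⁻ x, dE volume F (x + pr L z) x := by
  have hvol := (hTF n L).1
  have : IsFiniteMeasure (volume : Measure (Tor n L)) := ⟨by rw [hvol]; exact ENNReal.ofReal_lt_top⟩
  have hdEm : Measurable fun p : Tor n L × Tor n L => dE volume F p.1 p.2 :=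
    (ebc (Tor n L) volume F F hF hF).2.2.2.2.2.2.2.2.2.1
  have hbn : 0 < b ^ n := by positivity
  have hbvol : ∀ i, volume (Bl i) = ENNReal.ofReal (b ^ n) :=
    vol_eq volume Bl hbm hbu (b ^ n) hv (by rw [hvol, hc])
  have hne0 : ENNReal.ofReal (b ^ n) ≠ 0 := by
    rw [Ne, ENNReal.ofReal_eq_zero, not_le]
    exact hbn
  calc ∑ i, dp volume (Bl i) F
      ≤ ∑ i, (ENNReal.ofReal (b ^ n))⁻¹ * ∫⁻ x in Bl i, ∫⁻ y in Bl i, dE volume F x y := by
        refine Finset.sum_le_sum fun i _ => ?_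
        have h1 := jensen volume (Bl i) (by rw [hbvol]; exact hne0) F hF
        rwa [hbvol] at h1
    _ = (ENNReal.ofReal (b ^ n))⁻¹ * ∑ i, ∫⁻ x in Bl i, ∫⁻ y in Bl i, dE volume F x y := by
        rw [Finset.mul_sum]
    _ ≤ _ := mul_le_mul_right (sum_le hTF Bl hbm hbu hbz (fun x y => dE volume F x y) hdEm
        (fun x y => dE_symm volume F x y)) _

theorem ld : S_PO2 → S_TF → S_BLK → S_LD := by
  intro hPO2 hTF hBLK n L b μ CP _ q hn hμ hCP hPO hb hq hL F hF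
  obtain ⟨hbm, hbu, hbz, hbv, -⟩ := hBLK n L b q hq hL
  have hb0 : 0 < b := by linarith
  have hq1 : (1 : ℝ) ≤ q := by exact_mod_cast hq
  have hbL : b ≤ L := by rw [hL]; nlinarith
  have hbn : 0 < b ^ n := by positivity
  have hne0 : ENNReal.ofReal (b ^ n) ≠ 0 := by
    rw [Ne, ENNReal.ofReal_eq_zero, not_le]
    exact hbn
  have h1 : ∑ i : Fin n → Fin q, dp volume (blk n L b (fun c => (i c : ℕ))) F ≤
      (ENNReal.ofReal (b ^ n))⁻¹ * ∫⁻ z in cube n b, ∫⁻ x, dE volume F (x + pr L z) x := by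
    classical
    refine ld0 hTF (fun i : Fin n → Fin q => blk n L b (fun c => (i c : ℕ))) (fun i => hbm _) hbu
      (fun i => hbz _) hb0 (fun i => hbv _) ?_ F hF
    rw [Fintype.card_fun, Fintype.card_fin, Fintype.card_fin, hL]
    push_cast
    rw [mul_pow]
  have h2 : ∫⁻ z in cube n b, ∫⁻ x, dE volume F (x + pr L z) x ≤
      ENNReal.ofReal (CP * b ^ ((n : ℝ) + 2)) * ken (ENNReal.ofReal μ) (fun _ => 0) F :=
    hPO2 n L 2 CP (ENNReal.ofReal μ) (fun _ => 0) measurable_const hCP hPO F hF b hb hbL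
  refine h1.trans ((mul_le_mul_right h2 _).trans (le_of_eq ?_))
  have h3 : CP * b ^ ((n : ℝ) + 2) = b ^ n * (CP * b ^ 2) := by
    rw [Real.rpow_add hb0, Real.rpow_natCast, Real.rpow_two]
    ring
  rw [h3, ENNReal.ofReal_mul hbn.le, mul_assoc, ← mul_assoc,
    ENNReal.inv_mul_cancel hne0 ENNReal.ofReal_ne_top, one_mul]

end Pool.Agent.W334.CC
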